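import Pool.Agent.Y6.S.Stm

/-!
# XE1: sizes of the corrections `X1`, `X2` (project SK)
-/

open Set Filter Topology

set_option autoImplicit false

namespace Pool.Agent.Y87.SK

open Pool.Agent.Y5.D Pool.Agent.Y5.E
open Pool.Agent.Y6.N (lin)
open Pool.Agent.Y5.S2 (Sq6 Rot2 Om Dis2)
open Pool.Agent.Y710.EP (nm Pg Pl Pu Pm Po ww ee sA Nice nm_nn nm_sq grp_le nm_pm X_le_Y W_le_Y
  tl_bl sA_nn ee_nn ww_nn nm_mono μ_one lam_one Λ_nn Λ_le_lam L_one L_nn Λ_one)
open Pool.Agent.Y8.EP (Sq5)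
open Pool.Agent.Y6.S

variable {J : Type}

/-! ### The norm -/

theorem nm_tri {x y : Ix J → ℝ} (hx : Summable fun i => x i ^ 2) (hy : Summable fun i => y i ^ 2) :
    (Summable fun i => (x i + y i) ^ 2) ∧ nm (fun i => x i + y i) ≤ nm x + nm y := by
  have hsum : Summable fun i => (x i + y i) ^ 2 := by
    refine Summable.of_nonneg_of_le (fun i => sq_nonneg _) (fun i => ?_)
      ((hx.mul_left 2).add (hy.mul_left 2))
    nlinarith [sq_nonneg (x i - y i)]
  refine ⟨hsum, ?_⟩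
  rcases (nm_nn x).eq_or_lt with h0 | h0
  · -- `x = 0`
    have hz : ∀ i, x i = 0 := by
      have h1 : ∑' i, x i ^ 2 = 0 := by rw [← nm_sq, ← h0]; ring
      have h2 := (hasSum_zero_iff_of_nonneg (fun i => sq_nonneg (x i))).1 (h1 ▸ hx.hasSum)
      intro i
      have := congrFun h2 i
      simpa using this
    have e : (fun i => x i + y i) = y := by funext i; rw [hz i, zero_add]
    rw [e, ← h0, zero_add]
  · rcases (nm_nn y).eq_or_lt with h1 | h1
    · have hz : ∀ i, y i = 0 := by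
        have h2 : ∑' i, y i ^ 2 = 0 := by rw [← nm_sq, ← h1]; ring
        have h3 := (hasSum_zero_iff_of_nonneg (fun i => sq_nonneg (y i))).1 (h2 ▸ hy.hasSum)
        intro i
        have := congrFun h3 i
        simpa using this
      have e : (fun i => x i + y i) = x := by funext i; rw [hz i, add_zero]
      rw [e, ← h1, add_zero]
    · have hp : 0 ≤ nm x + nm y := by positivity
      rw [← abs_of_nonneg hp, ← abs_of_nonneg (nm_nn (fun i => x i + y i))]
      apply sq_le_sq.1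
      rw [nm_sq]
      set A := nm x with hA
      set B := nm y with hB
      calc ∑' i, (x i + y i) ^ 2 ≤ ∑' i, ((1 + B / A) * x i ^ 2 + (1 + A / B) * y i ^ 2) := by
            refine hsum.tsum_le_tsum (fun i => ?_) ((hx.mul_left _).add (hy.mul_left _))
            have h2 : 0 ≤ (B * x i - A * y i) ^ 2 / (A * B) := by positivity
            have h3 : (B * x i - A * y i) ^ 2 / (A * B) =
                (1 + B / A) * x i ^ 2 + (1 + A / B) * y i ^ 2 - (x i + y i) ^ 2 := by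
              field_simp
              ring
            linarith
        _ = (1 + B / A) * A ^ 2 + (1 + A / B) * B ^ 2 := by
            rw [(hx.mul_left _).tsum_add (hy.mul_left _), tsum_mul_left, tsum_mul_left, ← nm_sq,
              ← nm_sq]
        _ = (A + B) ^ 2 := by
            field_simp
            ring

theorem nm_smul (a : ℝ) (x : Ix J → ℝ) : nm (fun i => a * x i) = |a| * nm x := by
  unfold nm
  rw [← Real.sqrt_sq_eq_abs, ← Real.sqrt_mul (sq_nonneg a), ← tsum_mul_left]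
  congr 1
  exact tsum_congr fun i => by ring

theorem nm_four {x y u v : Ix J → ℝ} (a b : ℝ) (hx : Summable fun i => x i ^ 2)
    (hy : Summable fun i => y i ^ 2) (hu : Summable fun i => u i ^ 2)
    (hv : Summable fun i => v i ^ 2) :
    nm (fun i => a * x i + b * y i + u i + v i) ≤ |a| * nm x + |b| * nm y + nm u + nm v := by
  have hx' : Summable fun i => (a * x i) ^ 2 :=
    (hx.mul_left (a ^ 2)).congr fun i => by ring
  have hy' : Summable fun i => (b * y i) ^ 2 :=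
    (hy.mul_left (b ^ 2)).congr fun i => by ring
  obtain ⟨s1, t1⟩ := nm_tri hx' hy'
  obtain ⟨s2, t2⟩ := nm_tri s1 hu
  obtain ⟨-, t3⟩ := nm_tri s2 hv
  rw [nm_smul, nm_smul] at t1
  linarith

theorem nm_le_of_abs {x y : Ix J → ℝ} (hy : Summable fun i => y i ^ 2)
    (h : ∀ i, |x i| ≤ |y i|) : nm x ≤ nm y := by
  have h1 : ∀ i, x i ^ 2 ≤ y i ^ 2 := fun i => sq_le_sq.2 (h i)
  refine Real.sqrt_le_sqrt ?_
  exact (Summable.of_nonneg_of_le (fun i => sq_nonneg _) h1 hy).tsum_le_tsum h1 hy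

theorem sq_of {x y : Ix J → ℝ} (hy : Summable fun i => y i ^ 2) (h : ∀ i, |x i| ≤ |y i|) :
    Summable fun i => x i ^ 2 :=
  Summable.of_nonneg_of_le (fun i => sq_nonneg _) (fun i => sq_le_sq.2 (h i)) hy

/-! ### The linear part -/

section linear

variable {g : J → ℕ} {a D₁ κ : ℝ} {L ℓ : ℕ → ℝ} {D : Ix J → Ix J → ℝ}

theorem grp_fin (hfin : ∀ m, {j | g j = m}.Finite) (p : ℕ) : {i : Ix J | gr g i = p}.Finite := by
  refine ((Set.finite_singleton (Sum.inl p)).union ((hfin p).image Sum.inr)).subset ?_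
  rintro (n | j) h
  · left
    have : n = p := h
    rw [this]
    rfl
  · right
    exact ⟨j, h, rfl⟩

theorem lin_pg (hD : Dis2 g a D₁ κ L ℓ D) {β : Ix J → ℝ} {i : Ix J} {p : ℕ} (hi : gr g i = p) :
    lin D (Pg g p β) i = lin D β i := by
  unfold lin
  refine tsum_congr fun b => ?_
  unfold Pg
  by_cases h : D i b = 0
  · rw [h]; ring
  · rw [if_pos ((hD.blk i b h).symm.trans hi)]

theorem lin_le (hfin : ∀ m, {j | g j = m}.Finite) (hD : Dis2 g a D₁ κ L ℓ D) (β : Ix J → ℝ)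
    (p : ℕ) : nm (Pg g p (lin D β)) ≤ |D₁ * (κ ^ p * L p)| * nm (Pg g p β) := by
  classical
  set α := Pg g p (lin D β) with hα
  have hα0 : ∀ i, gr g i ≠ p → α i = 0 := fun i hi => if_neg hi
  have hβ0 : ∀ i, gr g i ≠ p → Pg g p β i = 0 := fun i hi => if_neg hi
  have h1 := hD.up p α (Pg g p β) hα0 hβ0
  have hs : Summable fun q : Ix J × Ix J => D q.1 q.2 * α q.1 * Pg g p β q.2 := by
    apply summable_of_finite_support
    refine ((grp_fin hfin p).prod (grp_fin hfin p)).subset ?_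
    rintro ⟨i, b⟩ hq
    rw [Function.mem_support] at hq
    refine ⟨?_, ?_⟩
    · by_contra h
      exact hq (by simp only; rw [hα0 i h]; ring)
    · by_contra h
      exact hq (by simp only; rw [hβ0 b h]; ring)
  have h2 : ∑' q : Ix J × Ix J, D q.1 q.2 * α q.1 * Pg g p β q.2 = nm α ^ 2 := by
    rw [hs.tsum_prod, nm_sq]
    refine tsum_congr fun i => ?_
    by_cases hi : gr g i = p
    · have e : ∀ b, D i b * α i * Pg g p β b = α i * (D i b * Pg g p β b) := fun b => by ring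
      rw [tsum_congr e, tsum_mul_left]
      have e2 : ∑' b, D i b * Pg g p β b = lin D (Pg g p β) i := rfl
      rw [e2, lin_pg hD hi]
      have e3 : α i = lin D β i := if_pos hi
      rw [← e3]
      ring
    · have e : ∀ b, D i b * α i * Pg g p β b = 0 := fun b => by rw [hα0 i hi]; ring
      rw [tsum_congr e, tsum_zero, hα0 i hi]
      ring
  rw [h2, abs_of_nonneg (sq_nonneg _)] at h1
  have h3 : nm α ^ 2 ≤ |D₁ * (κ ^ p * L p)| * nm α * nm (Pg g p β) := by
    refine h1.trans ?_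
    have h4 := le_abs_self (D₁ * (κ ^ p * L p))
    have h5 := nm_nn α
    have h6 := nm_nn (Pg g p β)
    exact mul_le_mul_of_nonneg_right (mul_le_mul_of_nonneg_right h4 h5) h6
  rcases (nm_nn α).eq_or_lt with h0 | h0
  · rw [← h0]
    have := nm_nn (Pg g p β)
    positivity
  · have h4 : nm α * nm α ≤ nm α * (|D₁ * (κ ^ p * L p)| * nm (Pg g p β)) := by
      calc nm α * nm α = nm α ^ 2 := by ring
        _ ≤ _ := h3
        _ = _ := by ring
    exact le_of_mul_le_mul_left h4 h0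

end linear

/-! ### Sums over double groups -/

theorem sA_pair {ρ : ℝ} (h0 : 0 < ρ) (h1 : ρ ≤ 1) {e : ℕ → ℝ} (he : ∀ p, 0 ≤ e p) (G : ℕ) :
    sA ρ (fun p => e (2 * (p / 2)) + e (2 * (p / 2) + 1)) (2 * G) ≤
      (1 + 1 / ρ) * sA ρ e (2 * G) := by
  induction G with
  | zero => simp [sA]
  | succ G ih =>
    have step : ∀ f : ℕ → ℝ, sA ρ f (2 * (G + 1)) =
        ρ ^ 2 * sA ρ f (2 * G) + ρ * f (2 * G) + f (2 * G + 1) := by
      intro f
      unfold sA
      have e1 : 2 * (G + 1) = 2 * G + 1 + 1 := by ring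
      rw [e1, Finset.sum_range_succ, Finset.sum_range_succ, Finset.mul_sum]
      have e2 : 2 * G + 1 + 1 - 1 - (2 * G + 1) = 0 := by omega
      have e3 : 2 * G + 1 + 1 - 1 - 2 * G = 1 := by omega
      rw [e2, e3, pow_zero, pow_one, one_mul]
      congr 2
      refine Finset.sum_congr rfl fun p hp => ?_
      rw [Finset.mem_range] at hp
      have e4 : 2 * G + 1 + 1 - 1 - p = 2 + (2 * G - 1 - p) := by omega
      rw [e4, pow_add]
      ring
    rw [step, step]
    have e5 : 2 * G / 2 = G := by omega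
    have e6 : (2 * G + 1) / 2 = G := by omega
    simp only [e5, e6]
    have h2 : ρ ^ 2 * sA ρ (fun p => e (2 * (p / 2)) + e (2 * (p / 2) + 1)) (2 * G) ≤
        ρ ^ 2 * ((1 + 1 / ρ) * sA ρ e (2 * G)) := mul_le_mul_of_nonneg_left ih (sq_nonneg _)
    have h3 : 1 ≤ 1 / ρ := by rw [le_div_iff₀ h0]; linarith
    have h4 : (1 + 1 / ρ) * (ρ * e (2 * G)) = (1 + ρ) * e (2 * G) := by field_simp; ring
    have h5 : (1 + ρ) * e (2 * G + 1) ≤ (1 + 1 / ρ) * e (2 * G + 1) :=
      mul_le_mul_of_nonneg_right (by linarith) (he _)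
    nlinarith

/-! ### The dual form of the bilinear estimate -/

theorem wt_abs (g : J → ℕ) (G : ℕ) (z : Ix J → ℝ) (i : Ix J) : |wt g (w1 G) z i| ≤ |z i| := by
  rcases i with n | j
  · simp [wt]
  · unfold wt w1
    simp only
    split_ifs
    · rw [one_mul]
    · rw [zero_mul, abs_zero]; exact abs_nonneg _

theorem w1_abs (G q : ℕ) : |w1 G q| ≤ 1 := by
  unfold w1
  split_ifs <;> simp

section dual

variable {g : J → ℕ} {κ μ lam Λ M : ℝ} {L C ℓ : ℕ → ℝ} {B : ℕ → ℕ → ℝ}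
  {c : Ix J → Ix J → Ix J → ℝ}

theorem dual (hK : Ker g Λ M L C B c) (hs : Sq5 κ μ lam Λ M L C ℓ B) {N₀ : ℝ} (hN : 1 ≤ N₀)
    (hKB : ∀ (n : ℕ) (α β γ : Ix J → ℝ) (b b' : ℕ → ℝ), Nice g L α → Nice g L β → Nice g L γ →
    ((∀ i, gr g i ≠ n → α i = 0) ∨ (n % 2 = 0 ∧ ∀ i, gr g i / 2 ≠ n / 2 → α i = 0)) →
    (∀ p, nm (Pg g p β) ≤ b p) → (∀ p, nm (Pg g p γ) ≤ b' p) →
    |tl c α β γ| ≤ N₀ * nm α * (L n * (
      (sA (Λ / lam) b n + nm (Pu g n β)) * (nm (Pu g n γ) + if n = 0 then 0 else b' (n - 1))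
      + (sA (Λ / lam) b' n + nm (Pu g n γ)) * (nm (Pu g n β) + if n = 0 then 0 else b (n - 1)))))
    (G : ℕ) {β γ : Ix J → ℝ} (hβ : Nice g L β) (hγ : Nice g L γ)
    (hα : Nice g L (wt g (w1 G) (bl c β γ))) {b b' : ℕ → ℝ}
    (hb : ∀ p, nm (Pg g p β) ≤ b p) (hb' : ∀ p, nm (Pg g p γ) ≤ b' p) {s u v s' u' v' : ℝ}
    (h1 : sA (Λ / lam) b (2 * G) ≤ s) (h2 : nm (Pu g (2 * G) β) ≤ u)
    (h3 : (if 2 * G = 0 then 0 else b (2 * G - 1)) ≤ v)
    (h1' : sA (Λ / lam) b' (2 * G) ≤ s') (h2' : nm (Pu g (2 * G) γ) ≤ u')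
    (h3' : (if 2 * G = 0 then 0 else b' (2 * G - 1)) ≤ v') :
    nm (wt g (w1 G) (bl c β γ)) ≤ N₀ * (L (2 * G) * ((s + u) * (u' + v') + (s' + u') * (u + v))) := by
  set α := wt g (w1 G) (bl c β γ) with hαd
  have hL := L_nn hs (2 * G)
  have hb0 : ∀ p, 0 ≤ b p := fun p => (nm_nn _).trans (hb p)
  have hb0' : ∀ p, 0 ≤ b' p := fun p => (nm_nn _).trans (hb' p)
  have hsb := sA_nn hs hb0 (2 * G)
  have hsb' := sA_nn hs hb0' (2 * G)
  have hub := nm_nn (Pu g (2 * G) β)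
  have hub' := nm_nn (Pu g (2 * G) γ)
  have hvb : 0 ≤ (if 2 * G = 0 then 0 else b (2 * G - 1)) := by split_ifs; exacts [le_rfl, hb0 _]
  have hvb' : 0 ≤ (if 2 * G = 0 then 0 else b' (2 * G - 1)) := by
    split_ifs; exacts [le_rfl, hb0' _]
  have hsup : ∀ i, gr g i / 2 ≠ 2 * G / 2 → α i = 0 := by
    rintro (n | j) hi
    · rfl
    · show w1 G (g j / 2) * _ = 0
      unfold w1
      rw [if_neg (by
        intro h
        apply hi
        show g j / 2 = 2 * G / 2
        omega), zero_mul]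
  have h4 := hKB (2 * G) α β γ b b' hα hβ hγ (Or.inr ⟨by omega, hsup⟩) hb hb'
  have h5 : tl c α β γ = nm α ^ 2 := by
    rw [← (tl_bl hK hs hα hβ hγ).2, nm_sq]
    refine tsum_congr fun i => ?_
    rcases i with n | j
    · show (0:ℝ) * _ = 0 ^ 2
      ring
    · show w1 G (g j / 2) * bl c β γ (Sum.inr j) * bl c β γ (Sum.inr j) =
        (w1 G (g j / 2) * bl c β γ (Sum.inr j)) ^ 2
      unfold w1
      split_ifs <;> ring
  rw [h5, abs_of_nonneg (sq_nonneg _)] at h4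
  set R := L (2 * G) * (
      (sA (Λ / lam) b (2 * G) + nm (Pu g (2 * G) β)) * (nm (Pu g (2 * G) γ) +
        if 2 * G = 0 then 0 else b' (2 * G - 1))
      + (sA (Λ / lam) b' (2 * G) + nm (Pu g (2 * G) γ)) * (nm (Pu g (2 * G) β) +
        if 2 * G = 0 then 0 else b (2 * G - 1))) with hR
  have hR0 : 0 ≤ R := by
    rw [hR]
    positivity
  have h6 : R ≤ L (2 * G) * ((s + u) * (u' + v') + (s' + u') * (u + v)) := by
    rw [hR]
    apply mul_le_mul_of_nonneg_left _ hL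
    apply add_le_add
    · exact mul_le_mul (by linarith) (by linarith) (by positivity) (by linarith)
    · exact mul_le_mul (by linarith) (by linarith) (by positivity) (by linarith)
  have h7 : nm α ≤ N₀ * R := by
    rcases (nm_nn α).eq_or_lt with h0 | h0
    · rw [← h0]
      positivity
    · have h8 : nm α * nm α ≤ nm α * (N₀ * R) := by
        calc nm α * nm α = nm α ^ 2 := by ring
          _ ≤ _ := h4
          _ = _ := by ring
      exact le_of_mul_le_mul_left h8 h0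
  exact h7.trans (mul_le_mul_of_nonneg_left h6 (by linarith))

end dual

theorem t_XEA1 : S_XEA1 := by
  intro h65 hKBs hRAP hWT J g σ τ κ μ lam Λ M a D₁ L C ℓ B D c hK hq hR hD ha
  obtain ⟨ℓ', hs⟩ := h65 κ μ lam Λ M L C ℓ B hq
  obtain ⟨N₀, hN, hKB⟩ := hKBs J g κ μ lam Λ M L C ℓ' B c hK hs
  obtain ⟨r1, -, -, -, -, -, -, -, -, r10, -, r12, r13, r14, r15, -⟩ :=
    hRAP J g σ τ κ μ lam Λ M a D₁ L C ℓ B D c hK hq hR hD
  have hμ1 := μ_one hs
  have hlam : 0 < lam := lt_of_lt_of_le one_pos (lam_one hs)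
  have hΛ : 0 < Λ := lt_of_lt_of_le one_pos (Λ_one hs)
  have hκ := hq.κ0
  set ρ := Λ / lam with hρd
  have hρ0 : 0 < ρ := div_pos hΛ hlam
  have hρ1 : ρ ≤ 1 := (div_le_one hlam).2 (Λ_le_lam hs)
  have hρi : 1 ≤ 1 / ρ := by rw [le_div_iff₀ hρ0]; linarith
  have hN2 : 1 ≤ 10 ^ 6 * (1 + μ) + N₀ * (20 + 4 * (1 / ρ)) := by
    have h1 : 0 ≤ N₀ * (20 + 4 * (1 / ρ)) := mul_nonneg (by linarith) (by linarith)
    linarith
  refine ⟨10 ^ 6 * (1 + μ) + N₀ * (20 + 4 * (1 / ρ)), hN2, ?_⟩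
  intro Q G z hQ hz
  have hzn : Nice g L z := r1 z hz
  obtain ⟨wt1, wt2, -, -, -, -⟩ := hWT J g σ τ κ μ lam Λ M L C ℓ B c hK hq hR z hzn
  obtain ⟨-, -, wt3, wt4, -, -⟩ := hWT J g σ τ κ μ lam Λ M L C ℓ B c hK hq hR z hzn
  have hrz : Rp g L (rt σ τ z) := r12 z hz
  obtain ⟨wr1, -, -, -, -, -⟩ := hWT J g σ τ κ μ lam Λ M L C ℓ B c hK hq hR (rt σ τ z)
    (r1 _ hrz)
  -- the quantities
  set m := 2 * G with hm
  have hLm : 0 < L m := lt_of_lt_of_le one_pos (L_one hs m)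
  have hKm : 0 < κ ^ m := pow_pos hκ m
  set P := nm (Pu g m z) with hP
  set S := sA ρ (ee g z) m with hS
  set Z := Zp (ee g z) m with hZ
  have hP0 : 0 ≤ P := nm_nn _
  have hS0 : 0 ≤ S := sA_nn hs (ee_nn z) m
  have he0 := ee_nn (g := g) z
  have hZ0 : 0 ≤ Z := by
    rw [hZ]
    unfold Zp
    have h1 := he0 (m - 1)
    have h2 := he0 (m - 2)
    split_ifs <;> linarith
  have hZ1 : (if m = 0 then 0 else ee g z (m - 1)) ≤ Z := by
    rw [hZ]
    unfold Zp
    have h2 := he0 (m - 2)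
    split_ifs <;> linarith
  set O := Om Q κ L G with hO
  have hOeq : O = Q * (κ ^ m * L m) := rfl
  have hO0 : 0 < O := by rw [hOeq]; positivity
  have hTS : TS κ ρ L g z m = L m * (κ ^ m + S + P) * (P + Z) := rfl
  rw [hTS, ← hOeq]
  set W := L m * (S + P) * (P + Z) with hW
  have hW0 : 0 ≤ W := by rw [hW]; positivity
  have hWT' : W ≤ L m * (κ ^ m + S + P) * (P + Z) := by
    rw [hW]
    have : L m * (S + P) ≤ L m * (κ ^ m + S + P) :=
      mul_le_mul_of_nonneg_left (by linarith) hLm.le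
    exact mul_le_mul_of_nonneg_right this (by positivity)
  have hKT : κ ^ m * L m * P ≤ L m * (κ ^ m + S + P) * (P + Z) := by
    have h1 : 0 ≤ L m * κ ^ m * Z := by positivity
    have h2 : 0 ≤ L m * (S + P) * (P + Z) := by positivity
    have h3 : L m * (κ ^ m + S + P) * (P + Z) = κ ^ m * L m * P + L m * κ ^ m * Z +
      L m * (S + P) * (P + Z) := by ring
    linarith
  set T := L m * (κ ^ m + S + P) * (P + Z) with hT
  have hT0 : 0 ≤ T := hW0.trans hWT'
  -- niceness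
  have hpm : Rp g L (Pm z) := r10 z hz
  have hpmn : Nice g L (Pm z) := r1 _ hpm
  have nb : ∀ β γ : Ix J → ℝ, Rp g L β → Rp g L γ → Nice g L (wt g (w1 G) (bl c β γ)) :=
    fun β γ hβ hγ => r1 _ (r13 _ _ 1 (w1_abs G) (r14 β γ hβ hγ))
  have hO2 : 0 ≤ 2 / O := by positivity
  have hα : ∀ q, |wα (Om Q κ L) G q| ≤ 2 / O := fun q => (wt2 Q G q (by linarith)).1
  have hβ : ∀ q, |wβ (Om Q κ L) G q| ≤ 2 / O := fun q => (wt2 Q G q (by linarith)).2
  -- sizes of `Pm z`
  have bm : ∀ p, nm (Pg g p (Pm z)) ≤ ee g z p := by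
    intro p
    rw [nm_pm]
    unfold ee
    have := ww_nn (g := g) z p
    linarith
  have um : nm (Pu g m (Pm z)) ≤ P := X_le_Y hs hzn m
  have uo : nm (Pu g m (Po z)) ≤ P := W_le_Y hs hzn m
  have wle : ∀ p, ww g z p ≤ ee g z p := fun p => by
    unfold ee
    have := abs_nonneg (z (Sum.inl p))
    linarith
  have sAmul : ∀ (k : ℝ) (e : ℕ → ℝ), sA ρ (fun p => k * e p) m = k * sA ρ e m := by
    intro k e
    unfold sA
    rw [Finset.mul_sum]
    exact Finset.sum_congr rfl fun p _ => by ring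
  -- the weighted vectors
  set γ1 := wt g (wα (Om Q κ L) G) z with hγ1
  set γ2 := wt g (wβ (Om Q κ L) G) (rt σ τ z) with hγ2
  have g1p : Rp g L γ1 := r13 _ _ _ hα hz
  have g2p : Rp g L γ2 := r13 _ _ _ hβ hrz
  have b1 : ∀ p, nm (Pg g p γ1) ≤ 2 / O * ee g z p := fun p =>
    ((wt1 _ _ hα).1 p).trans (mul_le_mul_of_nonneg_left (wle p) hO2)
  have u1 : nm (Pu g m γ1) ≤ 2 / O * P :=
    ((wt1 _ _ hα).2 m).trans (mul_le_mul_of_nonneg_left uo hO2)
  have v1 : (if m = 0 then 0 else 2 / O * ee g z (m - 1)) ≤ 2 / O * Z := by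
    have h1 := mul_le_mul_of_nonneg_left hZ1 hO2
    split_ifs at h1 ⊢ with h0
    · linarith
    · exact h1
  have b2 : ∀ p, nm (Pg g p γ2) ≤
      2 / O * (ee g z (2 * (p / 2)) + ee g z (2 * (p / 2) + 1)) := fun p =>
    ((wr1 _ _ hβ).1 p).trans (mul_le_mul_of_nonneg_left
      ((wt3 p).trans (add_le_add (wle _) (wle _))) hO2)
  have u2 : nm (Pu g m γ2) ≤ 2 / O * P := by
    refine ((wr1 _ _ hβ).2 m).trans (mul_le_mul_of_nonneg_left ?_ hO2)
    rw [hm, wt4 G]
    exact uo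
  have v2 : (if m = 0 then 0 else
      2 / O * (ee g z (2 * ((m - 1) / 2)) + ee g z (2 * ((m - 1) / 2) + 1))) ≤ 2 / O * Z := by
    split_ifs with h0
    · positivity
    · apply mul_le_mul_of_nonneg_left _ hO2
      rw [hZ]
      unfold Zp
      have e1 : 2 * ((m - 1) / 2) = m - 2 := by omega
      have e2 : m - 2 + 1 = m - 1 := by omega
      rw [if_neg h0, if_neg (by omega), e1, e2]
      linarith
  have s2 : sA ρ (fun p => 2 / O * (ee g z (2 * (p / 2)) + ee g z (2 * (p / 2) + 1))) m ≤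
      2 / O * ((1 + 1 / ρ) * S) := by
    rw [sAmul]
    exact mul_le_mul_of_nonneg_left (sA_pair hρ0 hρ1 he0 G) hO2
  have vm : (if m = 0 then 0 else ee g z (m - 1)) ≤ Z := hZ1
  -- the bilinear terms
  have T1 := dual hK hs hN hKB G hpmn hpmn (nb _ _ hpm hpm) bm bm (le_refl S) um vm (le_refl S)
    um vm
  have T3 := dual hK hs hN hKB G hpmn (r1 _ g1p) (nb _ _ hpm g1p) bm b1 (le_refl S) um vm
    (sAmul _ _).le u1 v1
  have T4 := dual hK hs hN hKB G (r1 _ g1p) hpmn (nb _ _ g1p hpm) b1 bm (sAmul _ _).le u1 v1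
    (le_refl S) um vm
  have T5 := dual hK hs hN hKB G hpmn (r1 _ g2p) (nb _ _ hpm g2p) bm b2 (le_refl S) um vm
    s2 u2 v2
  have T6 := dual hK hs hN hKB G (r1 _ g2p) hpmn (nb _ _ g2p hpm) b2 bm s2 u2 v2
    (le_refl S) um vm
  rw [← hm] at T1 T3 T4 T5 T6
  have T1' : nm (wt g (w1 G) (bl c (Pm z) (Pm z))) ≤ 2 * N₀ * W := by
    refine T1.trans (le_of_eq ?_)
    rw [hW]; ring
  have T3' : nm (wt g (w1 G) (bl c (Pm z) γ1)) ≤ 4 * N₀ / O * W := by
    refine T3.trans (le_of_eq ?_)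
    rw [hW, ← hS]; ring
  have T4' : nm (wt g (w1 G) (bl c γ1 (Pm z))) ≤ 4 * N₀ / O * W := by
    refine T4.trans (le_of_eq ?_)
    rw [hW, ← hS]; ring
  have hx : (S + P) * (2 / O * P + 2 / O * Z) + (2 / O * ((1 + 1 / ρ) * S) + 2 / O * P) * (P + Z) ≤
      2 / O * ((2 + 1 / ρ) * ((S + P) * (P + Z))) := by
    have h1 : 0 ≤ 2 / O * (1 / ρ) * (P * (P + Z)) := by positivity
    have h2 : 2 / O * ((2 + 1 / ρ) * ((S + P) * (P + Z))) -
      ((S + P) * (2 / O * P + 2 / O * Z) + (2 / O * ((1 + 1 / ρ) * S) + 2 / O * P) * (P + Z)) =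
      2 / O * (1 / ρ) * (P * (P + Z)) := by ring
    linarith
  have hN0 : 0 ≤ N₀ := by linarith
  have T5' : nm (wt g (w1 G) (bl c (Pm z) γ2)) ≤ (4 + 2 * (1 / ρ)) * N₀ / O * W := by
    refine T5.trans ((mul_le_mul_of_nonneg_left (mul_le_mul_of_nonneg_left hx hLm.le) hN0).trans
      (le_of_eq ?_))
    rw [hW]; ring
  have T6' : nm (wt g (w1 G) (bl c γ2 (Pm z))) ≤ (4 + 2 * (1 / ρ)) * N₀ / O * W := by
    refine T6.trans ((mul_le_mul_of_nonneg_left (mul_le_mul_of_nonneg_left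
      (le_of_eq_of_le (by ring) hx) hLm.le) hN0).trans (le_of_eq ?_))
    rw [hW]; ring
  -- the linear term
  have hlr : Rp g L (lin D (Pm z)) := r15 _ hpm
  have hls : Summable fun i => lin D (Pm z) i ^ 2 := (r1 _ hlr).sq hs
  have T2' : nm (wt g (w1 G) (lin D (Pm z))) ≤ 10 ^ 6 * (1 + μ) * (κ ^ m * L m * P) := by
    have hD0 : ∀ p, |D₁ * (κ ^ p * L p)| * nm (Pg g p (Pm z)) ≤
        10 ^ 6 * (κ ^ p * L p) * nm (Pg g p (Pm z)) := by
      intro p
      classical
      have hz1 : ∀ i : Ix J, gr g i ≠ p → (if i = Sum.inl p then (1:ℝ) else 0) = 0 := by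
        intro i hi
        rw [if_neg]
        intro h
        rw [h] at hi
        exact hi rfl
      have h1 := hD.up p (fun i => if i = Sum.inl p then (1:ℝ) else 0)
        (fun i => if i = Sum.inl p then (1:ℝ) else 0) hz1 hz1
      have e1 : ∑' i : Ix J, (if i = Sum.inl p then (1:ℝ) else 0) ^ 2 = 1 := by
        rw [tsum_eq_single (Sum.inl p)]
        · simp
        · intro i hi; simp [hi]
      rw [e1, Real.sqrt_one, mul_one, mul_one] at h1
      have h2 : 0 ≤ D₁ * (κ ^ p * L p) := (abs_nonneg _).trans h1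
      rw [abs_of_nonneg h2]
      have h3 : 0 ≤ κ ^ p * L p := mul_nonneg (pow_nonneg hκ.le _) (L_nn hs p)
      exact mul_le_mul_of_nonneg_right (mul_le_mul_of_nonneg_right hD.D1 h3) (nm_nn _)
    have hsm : Summable fun i => Pg g m (lin D (Pm z)) i ^ 2 :=
      sq_of hls fun i => Pool.Agent.Y710.EP.Pg_le m _ i
    have hsm1 : Summable fun i => Pg g (m + 1) (lin D (Pm z)) i ^ 2 :=
      sq_of hls fun i => Pool.Agent.Y710.EP.Pg_le (m + 1) _ i
    obtain ⟨t1, t2⟩ := nm_tri hsm hsm1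
    have h4 : nm (wt g (w1 G) (lin D (Pm z))) ≤
        nm (fun i => Pg g m (lin D (Pm z)) i + Pg g (m + 1) (lin D (Pm z)) i) := by
      apply nm_le_of_abs t1
      rintro (n | j)
      · show |(0:ℝ)| ≤ _
        rw [abs_zero]; exact abs_nonneg _
      · show |w1 G (g j / 2) * lin D (Pm z) (Sum.inr j)| ≤
          |(if g j = m then lin D (Pm z) (Sum.inr j) else 0) +
            (if g j = m + 1 then lin D (Pm z) (Sum.inr j) else 0)|
        unfold w1
        by_cases hj : g j / 2 = G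
        · rw [if_pos hj, one_mul]
          by_cases h0 : g j = m
          · rw [if_pos h0, if_neg (by omega), add_zero]
          · rw [if_neg h0, if_pos (by omega), zero_add]
        · rw [if_neg hj, zero_mul, abs_zero]
          exact abs_nonneg _
    have h5 := (lin_le hK.fin hD (Pm z) m).trans (hD0 m)
    have h6 := (lin_le hK.fin hD (Pm z) (m + 1)).trans (hD0 (m + 1))
    have h7 : κ ^ (m + 1) * L (m + 1) = μ * (κ ^ m * L m) := by
      rw [hs.L_succ, hs.μ_eq, pow_succ]; ring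
    rw [h7] at h6
    have pgle : ∀ p, m ≤ p → nm (Pg g p (Pm z)) ≤ P := by
      intro p hp
      refine le_trans ?_ um
      refine nm_mono hs (hpmn.pu hs m) fun i => ?_
      unfold Pg Pu
      by_cases h : gr g i = p
      · rw [if_pos h, if_pos (by omega)]
      · rw [if_neg h, abs_zero]; exact abs_nonneg _
    have h8 := pgle m le_rfl
    have h9 := pgle (m + 1) (by omega)
    have hKL : 0 ≤ κ ^ m * L m := by positivity
    have hμ0 : 0 ≤ μ := by linarith
    have h10 : 10 ^ 6 * (κ ^ m * L m) * nm (Pg g m (Pm z)) ≤ 10 ^ 6 * (κ ^ m * L m) * P :=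
      mul_le_mul_of_nonneg_left h8 (by positivity)
    have h11 : 10 ^ 6 * (μ * (κ ^ m * L m)) * nm (Pg g (m + 1) (Pm z)) ≤
        10 ^ 6 * (μ * (κ ^ m * L m)) * P := mul_le_mul_of_nonneg_left h9 (by positivity)
    calc nm (wt g (w1 G) (lin D (Pm z))) ≤ _ := h4
      _ ≤ _ := t2
      _ ≤ 10 ^ 6 * (κ ^ m * L m) * P + 10 ^ 6 * (μ * (κ ^ m * L m)) * P := by linarith
      _ = _ := by ring
  have hρp : 0 ≤ 1 / ρ := by linarith
  constructor
  · -- X1
    have e : wt g (w1 G) (X1 g D c (Om Q κ L) G z) =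
        fun i => (1 / O) * wt g (w1 G) (bl c (Pm z) (Pm z)) i +
          (-(1 / O)) * wt g (w1 G) (lin D (Pm z)) i + wt g (w1 G) (bl c (Pm z) γ1) i +
          wt g (w1 G) (bl c γ1 (Pm z)) i := by
      funext i
      rcases i with n | j
      · simp [wt]
      · simp only [wt, X1, bs, ← hγ1, ← hO]
        ring
    rw [e]
    refine (nm_four (1 / O) (-(1 / O)) ((nb _ _ hpm hpm).sq hs)
      (sq_of hls (wt_abs g G _)) ((nb _ _ hpm g1p).sq hs) ((nb _ _ g1p hpm).sq hs)).trans ?_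
    have hO1 : 0 ≤ 1 / O := by positivity
    rw [abs_neg, abs_of_nonneg hO1]
    calc 1 / O * nm (wt g (w1 G) (bl c (Pm z) (Pm z))) + 1 / O * nm (wt g (w1 G) (lin D (Pm z))) +
          nm (wt g (w1 G) (bl c (Pm z) γ1)) + nm (wt g (w1 G) (bl c γ1 (Pm z)))
        ≤ 1 / O * (2 * N₀ * W) + 1 / O * (10 ^ 6 * (1 + μ) * (κ ^ m * L m * P)) +
          4 * N₀ / O * W + 4 * N₀ / O * W := by
          have q1 := mul_le_mul_of_nonneg_left T1' hO1
          have q2 := mul_le_mul_of_nonneg_left T2' hO1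
          linarith
      _ = 1 / O * (10 * N₀ * W + 10 ^ 6 * (1 + μ) * (κ ^ m * L m * P)) := by ring
      _ ≤ 1 / O * ((10 ^ 6 * (1 + μ) + N₀ * (20 + 4 * (1 / ρ))) * T) := by
          apply mul_le_mul_of_nonneg_left _ hO1
          have q1 : 10 * N₀ * W ≤ 10 * N₀ * T := mul_le_mul_of_nonneg_left hWT' (by positivity)
          have q2 : 10 ^ 6 * (1 + μ) * (κ ^ m * L m * P) ≤ 10 ^ 6 * (1 + μ) * T :=
            mul_le_mul_of_nonneg_left hKT (by positivity)
          have q3 : 0 ≤ N₀ * (10 + 4 * (1 / ρ)) * T := by positivity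
          linarith
      _ = _ := by ring
  · -- X2
    have e : wt g (w1 G) (X2 g σ τ c (Om Q κ L) G z) =
        fun i => 0 * wt g (w1 G) (bl c (Pm z) (Pm z)) i +
          0 * wt g (w1 G) (lin D (Pm z)) i + wt g (w1 G) (bl c (Pm z) γ2) i +
          wt g (w1 G) (bl c γ2 (Pm z)) i := by
      funext i
      rcases i with n | j
      · simp [wt]
      · simp only [wt, X2, bs, ← hγ2, ← hO]
        ring
    rw [e]
    refine (nm_four 0 0 ((nb _ _ hpm hpm).sq hs)
      (sq_of hls (wt_abs g G _)) ((nb _ _ hpm g2p).sq hs) ((nb _ _ g2p hpm).sq hs)).trans ?_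
    have hO1 : 0 ≤ 1 / O := by positivity
    rw [abs_zero, zero_mul, zero_mul, zero_add, zero_add]
    calc nm (wt g (w1 G) (bl c (Pm z) γ2)) + nm (wt g (w1 G) (bl c γ2 (Pm z)))
        ≤ (4 + 2 * (1 / ρ)) * N₀ / O * W + (4 + 2 * (1 / ρ)) * N₀ / O * W := add_le_add T5' T6'
      _ = 1 / O * ((8 + 4 * (1 / ρ)) * N₀ * W) := by ring
      _ ≤ 1 / O * ((10 ^ 6 * (1 + μ) + N₀ * (20 + 4 * (1 / ρ))) * T) := by
          apply mul_le_mul_of_nonneg_left _ hO1
          have q1 : (8 + 4 * (1 / ρ)) * N₀ * W ≤ (8 + 4 * (1 / ρ)) * N₀ * T :=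
            mul_le_mul_of_nonneg_left hWT' (by positivity)
          have q3 : 0 ≤ (12 * N₀ + 10 ^ 6 * (1 + μ)) * T := by
            have : 0 ≤ μ := by linarith
            positivity
          linarith
      _ = _ := by ring

end Pool.Agent.Y87.SK
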