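import Pool.Agent.Y8.SK.St

/-!
# BARV: bounds of the corrected other modes (project SK)
-/

open Set Filter Topology MeasureTheory

set_option autoImplicit false

namespace Pool.Agent.Y87.SK

open Pool.Agent.Y5.E (At Aw Ut Uw loc)
open Pool.Agent.Y5.F (vfk Yk Wk stay_le sqrt_gronA)
open Pool.Agent.Y6.S (Pe6 SysR Tk Rk)
open Pool.Agent.Y8.EP (EE EE_pos dd Pp Pn zz th bb nb Cur Low Ub GrowE)
open Pool.Agent.Y8.SK

/-- Gronwall for a nonnegative function given by its square. -/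
theorem gr {v D : ℝ → ℝ} {a b q F : ℝ} (hab : a ≤ b) (hq : 0 ≤ q) (hF : 0 ≤ F)
    (hc : ContinuousOn v (Icc a b)) (hv : ∀ t ∈ Icc a b, 0 ≤ v t)
    (hd : ∀ t ∈ Ioo a b, HasDerivAt (fun τ => v τ ^ 2) (D t) t)
    (h : ∀ t ∈ Ioo a b, D t ≤ 2 * v t * (q * v t + F)) :
    v b ≤ Real.exp (q * (b - a)) * (v a + 2 * F * (b - a)) := by
  have h1 := sqrt_gronA (Y := fun τ => v τ ^ 2) (D := D) (c := F) (η := 0) hab hq hF le_rfl
    (hc.pow 2) (fun t ht => sq_nonneg _) hd (fun t ht => by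
      have h2 := h t ht
      have h3 := hv t ⟨ht.1.le, ht.2.le⟩
      rw [Real.sqrt_sq h3]
      nlinarith)
  rw [Real.sqrt_sq (hv b ⟨hab, le_rfl⟩), Real.sqrt_sq (hv a ⟨le_rfl, hab⟩), add_zero] at h1
  exact h1

/-- A damped nonnegative function given by its square. -/
theorem dam {v D : ℝ → ℝ} {a b c F M : ℝ} (hab : a ≤ b) (hM : 0 ≤ M) (hc0 : 0 ≤ c)
    (hFM : F ≤ c * M) (hc : ContinuousOn v (Icc a b)) (hv : ∀ t ∈ Icc a b, 0 ≤ v t)
    (hd : ∀ t ∈ Ioo a b, HasDerivAt (fun τ => v τ ^ 2) (D t) t)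
    (h : ∀ t ∈ Ioo a b, D t ≤ 2 * v t * (-(c * v t) + F)) (h0 : v a ≤ M) : v b ≤ M := by
  have h1 := stay_le (φ := fun τ => v τ ^ 2) (φ' := D) (K := M ^ 2) hab (hc.pow 2) hd
    (fun t ht hlt => by
      have h3 := hv t ⟨ht.1.le, ht.2.le⟩
      have h4 : M < v t := lt_of_pow_lt_pow_left₀ 2 h3 hlt
      have h5 := h t ht
      have h6 : c * M ≤ c * v t := mul_le_mul_of_nonneg_left h4.le hc0
      have h7 : -(c * v t) + F ≤ 0 := by linarith
      have h8 : 2 * v t * (-(c * v t) + F) ≤ 0 := mul_nonpos_of_nonneg_of_nonpos (by linarith) h7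
      linarith)
    (by have := hv a ⟨le_rfl, hab⟩; gcongr)
  exact (sq_le_sq₀ (hv b ⟨hab, le_rfl⟩) hM).1 h1

section stage

variable {κ lam N N₂ Q η A : ℝ} {H : ℕ → ℝ} {L C ℓ : ℕ → ℝ} {B : ℕ → ℕ → ℝ}
  {T : ℝ} {x w v f : ℕ → ℝ → ℝ} {n : ℕ} {σ : ℕ → ℝ} {t1 t : ℝ}

theorem sg_nn (h : Stg κ lam η L T x w n σ) : ∀ i ≤ n, 0 ≤ σ i := by
  intro i
  induction i with
  | zero => intro _; rw [h.σ0]
  | succ i ih =>
    intro hi
    exact (ih (by omega)).trans (h.σlt i (by omega)).le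

theorem sg_mono (h : Stg κ lam η L T x w n σ) {i j : ℕ} (hij : i ≤ j) (hj : j ≤ n) :
    σ i ≤ σ j := by
  induction j with
  | zero =>
    rw [Nat.le_zero.1 hij]
  | succ j ih =>
    rcases Nat.lt_or_ge i (j + 1) with h1 | h1
    · exact (ih (by omega) (by omega)).trans (h.σlt j (by omega)).le
    · rw [le_antisymm hij h1]

theorem tim0 (b : BH κ lam N Q η L C ℓ B T x w f n σ t1 t) {τ : ℝ} (hτ : τ ∈ Icc (σ n) t) :
    (τ - σ n) * L n ≤ 62 / 100 * lam := by
  have h1 := b.hc.le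
  have hL := b.g.q.Lp n
  have h2 : τ - σ n ≤ 62 / 100 * lam / L n := by
    have := hτ.2
    have := b.ht.2
    linarith
  calc (τ - σ n) * L n ≤ 62 / 100 * lam / L n * L n := by gcongr
    _ = _ := by field_simp

theorem tim (b : BH κ lam N Q η L C ℓ B T x w f n σ t1 t) {τ : ℝ} (hτ : τ ∈ Icc (σ n) t) :
    ∀ k ≤ n, (τ - σ (n - k)) * L (n - k) ≤ 6201 / 10000 * lam := by
  have q := b.g.q
  have hl := q.lam_big
  intro k
  induction k with
  | zero =>
    intro _
    have := tim0 b hτ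
    rw [Nat.sub_zero]
    linarith
  | succ k ih =>
    intro hk
    obtain ⟨i, hi⟩ : ∃ i, n - k = i + 1 := ⟨n - k - 1, by omega⟩
    have e : n - (k + 1) = i := by omega
    have h1 := ih (by omega)
    rw [hi] at h1
    rw [e]
    have h2 := b.h.dur i (by omega)
    have hL := q.Lp i
    have h3 : (σ (i + 1) - σ i) * L i ≤ 62 / 100 * lam := by
      calc (σ (i + 1) - σ i) * L i ≤ 62 / 100 * lam / L i * L i := by gcongr
        _ = _ := by field_simp
    rw [q.L_succ] at h1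
    have h4 : (τ - σ (i + 1)) * L i ≤ 6201 / 10000 := by
      have h5 : lam * ((τ - σ (i + 1)) * L i) ≤ lam * (6201 / 10000) := by linarith
      exact le_of_mul_le_mul_left h5 (by linarith)
    have h6 : (6201 / 10000 : ℝ) ≤ 1 / 10000 * lam := by linarith
    linarith

/-- the barriers increase -/
theorem zz_mono (b : BH κ lam N Q η L C ℓ B T x w f n σ t1 t) {τ s : ℝ} (hs : σ n ≤ s)
    (hsτ : s ≤ τ) (hτ : τ ≤ t) : zz C x n s ≤ zz C x n τ := by
  have q := b.g.q
  have hσ := sg_nn b.h n le_rfl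
  have hT : t < T := b.ht.2.trans_le b.hc.leT
  have hc : ContinuousOn (zz C x n) (Icc s τ) :=
    ((b.g.cont (n + 1)).mono fun u hu => ⟨hσ.trans (hs.trans hu.1), (hu.2.trans hτ).trans_lt hT⟩).add
      continuousOn_const
  have hm : MonotoneOn (zz C x n) (Icc s τ) := by
    refine monotoneOn_of_deriv_nonneg (convex_Icc _ _) hc ?_ ?_
    · intro u hu
      rw [interior_Icc] at hu
      obtain ⟨r, hr, _⟩ := b.hd u ⟨hs.trans_lt hu.1, hu.2.trans_le hτ⟩
      exact hr.differentiableAt.differentiableWithinAt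
    · intro u hu
      rw [interior_Icc] at hu
      obtain ⟨r, hr, hr2⟩ := b.hd u ⟨hs.trans_lt hu.1, hu.2.trans_le hτ⟩
      rw [hr.deriv]
      have h1 := (b.hy u ⟨hs.trans hu.1.le, hu.2.trans_le hτ⟩).r
      have h2 := q.Cp n
      have h3 := q.Lp n
      have h4 : 0 ≤ zz C x n u := by
        unfold zz
        linarith
      have h5 : 0 ≤ 985 / 10000 * (L n * zz C x n u) := by positivity
      linarith
  exact hm ⟨le_rfl, hsτ⟩ ⟨hsτ, le_rfl⟩ hsτ

theorem bh_mono (b : BH κ lam N Q η L C ℓ B T x w f n σ t1 t) {τ s : ℝ} (hs : σ n ≤ s)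
    (hsτ : s ≤ τ) (hτ : τ ≤ t) (p : ℕ) : bh lam C x n p s ≤ bh lam C x n p τ := by
  have q := b.g.q
  have hl := q.lamp
  have h1 := zz_mono b hs hsτ hτ
  unfold bh
  split_ifs
  · exact le_rfl
  · unfold bb th
    have h2 : max (zz C x n s - 8952 / 10000) 0 ≤ max (zz C x n τ - 8952 / 10000) 0 :=
      max_le_max (by linarith) le_rfl
    have h3 : 0 ≤ max (zz C x n s - 8952 / 10000) 0 := le_max_right _ _
    gcongr

theorem e34 (hl : 10 ^ 30 ≤ lam) : Real.exp (3 / 4 * lam) + 1 ≤ Real.exp lam := by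
  have h1 : (1 : ℝ) ≤ Real.exp (3 / 4 * lam) := Real.one_le_exp (by linarith)
  have h2 : 1 / 4 * lam + 1 ≤ Real.exp (1 / 4 * lam) := Real.add_one_le_exp _
  have h3 : Real.exp lam = Real.exp (3 / 4 * lam) * Real.exp (1 / 4 * lam) := by
    rw [← Real.exp_add]
    congr 1
    ring
  rw [h3]
  nlinarith

/-- the bound of the derivative -/
theorem dv_le (q : Pe6 κ lam N L C ℓ B) (sv : SysV κ lam N₂ Q L T x w v)
    (hN : 1 ≤ N₂) (hQ : 1 ≤ Q) {G : ℕ} {a S : ℝ} (hS : 0 ≤ S) (ht : t ∈ Ico 0 T)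
    (ha : At lam x w (2 * G) t + √(Yk κ x w (2 * G) t) ≤ a)
    (hR : Rk κ lam L x w (2 * G) t ≤ Real.exp (3 / 4 * lam) * S)
    (hq : L (2 * G) * (Aw lam w (2 * G) t + √(Wk κ w (2 * G) t)) * √(Wk κ w (2 * G) t)
        + (if 2 * G = 0 then 0 else L (2 * G - 1) * Aw lam w (2 * G) t * w (2 * G - 1) t)
      ≤ 1 / Q * S) :
    ∃ D, HasDerivWithinAt (fun τ => v G τ ^ 2) D (Ico 0 T) t ∧
    D ≤ 2 * v G t * (
      -((if G = 0 then 0 else 1 / 1000 * (L (2 * G) / lam)) * v G t)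
      + N₂ * (L (2 * G) * a) * v G t + N₂ / Q * Real.exp lam * S) := by
  obtain ⟨D, h1, h2⟩ := sv.dv G t ht
  refine ⟨D, h1, h2.trans ?_⟩
  have hv := sv.v0 G t ht
  have hL := q.Lp (2 * G)
  have hQ0 : 0 < Q := by linarith
  have e : (if 2 * G = 0 then (0 : ℝ) else L (2 * G - 1) * Aw lam w (2 * G) t * w (2 * G - 1) t) =
      (if G = 0 then (0 : ℝ) else L (2 * G - 1) * Aw lam w (2 * G) t * w (2 * G - 1) t) := by
    by_cases hG : G = 0
    · rw [if_pos hG, if_pos (by omega)]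
    · rw [if_neg hG, if_neg (by omega)]
  rw [e] at hq
  refine mul_le_mul_of_nonneg_left ?_ (by linarith)
  have h3 : N₂ * (L (2 * G) * (At lam x w (2 * G) t + √(Yk κ x w (2 * G) t))) * v G t ≤
      N₂ * (L (2 * G) * a) * v G t := by gcongr
  have h4 : N₂ / Q * Rk κ lam L x w (2 * G) t ≤ N₂ / Q * (Real.exp (3 / 4 * lam) * S) := by
    gcongr
  have h5 : N₂ * (L (2 * G) * (Aw lam w (2 * G) t + √(Wk κ w (2 * G) t)) * √(Wk κ w (2 * G) t)
        + (if G = 0 then 0 else L (2 * G - 1) * Aw lam w (2 * G) t * w (2 * G - 1) t)) ≤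
      N₂ * (1 / Q * S) := by gcongr
  have h6 : N₂ / Q * (Real.exp (3 / 4 * lam) * S) + N₂ * (1 / Q * S) ≤
      N₂ / Q * Real.exp lam * S := by
    have h7 := e34 q.lam_big
    have e2 : N₂ / Q * (Real.exp (3 / 4 * lam) * S) + N₂ * (1 / Q * S) =
        N₂ / Q * (Real.exp (3 / 4 * lam) + 1) * S := by
      field_simp
    rw [e2]
    gcongr
  linarith

/-- the two Gronwall bounds for one group -/
theorem gr_G (b : BH κ lam N Q η L C ℓ B T x w f n σ t1 t) (sv : SysV κ lam N₂ Q L T x w v)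
    (hN : 1 ≤ N₂) (hQ : 1 ≤ Q) {G : ℕ} {a S τ : ℝ} (hS : 0 ≤ S) (ha0 : 0 ≤ a)
    (hτ : τ ∈ Icc (σ n) t)
    (ha : ∀ s ∈ Ioo (σ n) τ, At lam x w (2 * G) s + √(Yk κ x w (2 * G) s) ≤ a)
    (hR : ∀ s ∈ Ioo (σ n) τ, Rk κ lam L x w (2 * G) s ≤ Real.exp (3 / 4 * lam) * S)
    (hq : ∀ s ∈ Ioo (σ n) τ,
      L (2 * G) * (Aw lam w (2 * G) s + √(Wk κ w (2 * G) s)) * √(Wk κ w (2 * G) s)
        + (if 2 * G = 0 then 0 else L (2 * G - 1) * Aw lam w (2 * G) s * w (2 * G - 1) s)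
      ≤ 1 / Q * S) :
    v G τ ≤ Real.exp (N₂ * (L (2 * G) * a) * (τ - σ n)) *
      (v G (σ n) + 2 * (N₂ / Q * Real.exp lam * S) * (τ - σ n)) ∧
    (∀ M c : ℝ, 0 ≤ M → 0 ≤ c → G ≠ 0 → v G (σ n) ≤ M → N₂ / Q * Real.exp lam * S ≤ c * M →
      c ≤ 1 / 1000 * (L (2 * G) / lam) - N₂ * (L (2 * G) * a) → v G τ ≤ M) := by
  have q := b.g.q
  have hσ := sg_nn b.h n le_rfl
  have hT : t < T := b.ht.2.trans_le b.hc.leT
  have hL := q.Lp (2 * G)
  have hl := q.lamp
  have hmem : ∀ s ∈ Ioo (σ n) τ, s ∈ Ico 0 T := fun s hs =>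
    ⟨hσ.trans hs.1.le, (hs.2.trans_le hτ.2).trans hT⟩
  have hmem' : ∀ s ∈ Icc (σ n) τ, s ∈ Ico 0 T := fun s hs =>
    ⟨hσ.trans hs.1, (hs.2.trans hτ.2).trans_lt hT⟩
  have hex : ∀ s : ℝ, ∃ D, s ∈ Ioo (σ n) τ → HasDerivAt (fun τ => v G τ ^ 2) D s ∧
      D ≤ 2 * v G s * (
      -((if G = 0 then 0 else 1 / 1000 * (L (2 * G) / lam)) * v G s)
      + N₂ * (L (2 * G) * a) * v G s + N₂ / Q * Real.exp lam * S) := by
    intro s
    by_cases hs : s ∈ Ioo (σ n) τ
    · obtain ⟨D, h1, h2⟩ := dv_le q sv hN hQ hS (hmem s hs) (ha s hs) (hR s hs) (hq s hs)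
      exact ⟨D, fun _ => ⟨h1.hasDerivAt (Ico_mem_nhds (hσ.trans_lt hs.1) (hmem s hs).2), h2⟩⟩
    · exact ⟨0, fun h => absurd h hs⟩
  choose D hD using hex
  have hc : ContinuousOn (v G) (Icc (σ n) τ) := (sv.vc G).mono hmem'
  have hv : ∀ s ∈ Icc (σ n) τ, 0 ≤ v G s := fun s hs => sv.v0 G s (hmem' s hs)
  have hF : 0 ≤ N₂ / Q * Real.exp lam * S := by positivity
  constructor
  · refine gr hτ.1 (by positivity) hF hc hv (fun s hs => (hD s hs).1) fun s hs => ?_
    refine (hD s hs).2.trans ?_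
    have h1 := hv s ⟨hs.1.le, hs.2.le⟩
    refine mul_le_mul_of_nonneg_left ?_ (by linarith)
    have h2 : 0 ≤ (if G = 0 then 0 else 1 / 1000 * (L (2 * G) / lam)) * v G s := by
      refine mul_nonneg ?_ h1
      split_ifs
      · exact le_rfl
      · positivity
    linarith
  · intro M c hM hc0 hG h0 hFM hcc
    refine dam hτ.1 hM hc0 hFM hc hv (fun s hs => (hD s hs).1) (fun s hs => ?_) h0
    refine (hD s hs).2.trans ?_
    have h1 := hv s ⟨hs.1.le, hs.2.le⟩
    refine mul_le_mul_of_nonneg_left ?_ (by linarith)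
    rw [if_neg hG]
    have h2 : c * v G s ≤ (1 / 1000 * (L (2 * G) / lam) - N₂ * (L (2 * G) * a)) * v G s := by
      gcongr
    linarith

/-- the bounds of the corrected modes -/
theorem vd (b : BH κ lam N Q η L C ℓ B T x w f n σ t1 t) (sv : SysV κ lam N₂ Q L T x w v)
    (k0 : Kon κ lam N₂ Q η H A) (vs : VS lam N₂ Q H A L v n σ)
    (hR : ∀ τ ∈ Icc (σ n) t, Rb κ lam Q L C x w n τ) {τ : ℝ} (hτ : τ ∈ Icc (σ n) t) :
    VD lam N₂ Q H A L C x v n σ τ := by
  have q := b.g.q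
  have hl := q.lamp
  have hlb := q.lam_big
  have hN := k0.N₂1
  have hQ := k0.Q1
  have hQ0 : 0 < Q := by linarith
  have hN0 : 0 < N₂ := by linarith
  have hex := Real.exp_pos lam
  have hLn := q.Lp n
  have hA : 0 ≤ A := le_trans (by positivity) k0.Ab
  have hH : ∀ k, 0 ≤ H k := fun k => le_trans (by positivity) (k0.Hb k)
  have htm := tim0 b hτ
  have htn : 0 ≤ τ - σ n := sub_nonneg.2 hτ.1
  have hin : ∀ s ∈ Ioo (σ n) τ, s ∈ Icc (σ n) t := fun s hs => ⟨hs.1.le, hs.2.le.trans hτ.2⟩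
  intro G
  have hvs := vs G
  by_cases hG : 2 * G ≤ n
  · rw [if_pos hG] at hvs ⊢
    have hLm := q.Lp (2 * G)
    set h := (1 / 2 : ℝ) ^ (n - 2 * G) with hh
    have hh0 : 0 < h := by positivity
    have hh1 : h ≤ 1 := pow_le_one₀ (by norm_num) (by norm_num)
    have h1 := (gr_G b sv hN hQ (G := G) (a := 4) (S := h * L n) (by positivity) (by norm_num) hτ
      (fun s hs => (hR s (hin s hs)).Al _ hG) (fun s hs => (hR s (hin s hs)).Rl _ hG)
      (fun s hs => (hR s (hin s hs)).ql _ hG)).1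
    have h2 : 2 * (N₂ / Q * Real.exp lam * (h * L n)) * (τ - σ n) ≤ 1 / Q * (A * h) := by
      calc 2 * (N₂ / Q * Real.exp lam * (h * L n)) * (τ - σ n)
          = 1 / Q * (2 * N₂ * Real.exp lam * ((τ - σ n) * L n) * h) := by
            field_simp
        _ ≤ 1 / Q * (2 * N₂ * Real.exp lam * (62 / 100 * lam) * h) := by gcongr
        _ ≤ 1 / Q * (A * h) := by
            have h3 := k0.Ab
            have h4 : 2 * N₂ * Real.exp lam * (62 / 100 * lam) ≤ A := by
              have h5 : 0 < N₂ * lam * Real.exp lam := by positivity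
              nlinarith
            gcongr
    have h3 : 0 ≤ σ n - σ (2 * G) := sub_nonneg.2 (sg_mono b.h hG le_rfl)
    have h4 : (1 : ℝ) ≤ Real.exp (4 * N₂ * (L (2 * G) * (σ n - σ (2 * G)))) :=
      Real.one_le_exp (by positivity)
    have h5 : Real.exp (4 * N₂ * (L (2 * G) * (τ - σ (2 * G)))) =
        Real.exp (N₂ * (L (2 * G) * 4) * (τ - σ n)) *
        Real.exp (4 * N₂ * (L (2 * G) * (σ n - σ (2 * G)))) := by
      rw [← Real.exp_add]
      congr 1
      ring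
    set E0 := Real.exp (4 * N₂ * (L (2 * G) * (σ n - σ (2 * G)))) with hE0
    set E1 := Real.exp (N₂ * (L (2 * G) * 4) * (τ - σ n)) with hE1
    have hE1p : 0 < E1 := Real.exp_pos _
    rw [h5]
    refine h1.trans ?_
    have h6 : A * h ≤ E0 * (A * h) := le_mul_of_one_le_left (by positivity) h4
    calc E1 * (v G (σ n) + 2 * (N₂ / Q * Real.exp lam * (h * L n)) * (τ - σ n))
        ≤ E1 * (1 / Q * (E0 * (H 0 + A * (2 - 2 * h))) + 1 / Q * (E0 * (A * h))) := by
          have h7 : 1 / Q * (A * h) ≤ 1 / Q * (E0 * (A * h)) := by gcongr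
          have h8 := h2.trans h7
          gcongr
      _ = 1 / Q * (E1 * E0 * (H 0 + A * (2 - h))) := by ring
  · rw [if_neg hG] at hvs ⊢
    obtain ⟨k, hk⟩ : ∃ k, 2 * G = n + 1 + k := ⟨2 * G - n - 1, by omega⟩
    have e1 : 2 * G - n = k + 1 := by omega
    have e2 : 2 * G - n - 1 = k := by omega
    rw [e2, e1] at hvs
    rw [e2]
    have hLm := q.Lp (2 * G)
    have hG0 : G ≠ 0 := by omega
    set β := bh lam C x n (2 * G) τ with hβ
    have hβ0 : 0 < β := bh_pos _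
    have hst : Real.exp (-(Pp k) * lam) ≤ β := by
      rw [hβ, hk]
      rcases k with _ | k
      · rw [add_zero, bh_low le_rfl]
        apply Real.exp_le_one_iff.2
        unfold Pp
        have : 0 ≤ 4 / 1000 * lam := by positivity
        push_cast
        linarith
      · rw [show n + 1 + (k + 1) = n + 2 + k by ring, bh_tail]
        exact bb_ge q k
    have hv0 : v G (σ n) ≤ 1 / Q * (H (k + 1) * β) := by
      refine hvs.trans ?_
      have := hH (k + 1)
      gcongr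
    have hbs : ∀ s ∈ Ioo (σ n) τ, bh lam C x n (2 * G) s ≤ β := fun s hs =>
      bh_mono b hs.1.le hs.2.le hτ.2 _
    have hRs : ∀ s ∈ Ioo (σ n) τ, Rk κ lam L x w (2 * G) s ≤
        Real.exp (3 / 4 * lam) * (L (2 * G) * β) := fun s hs => by
      refine ((hR s (hin s hs)).R _ (by omega)).trans ?_
      have := hbs s hs
      gcongr
    have hqs : ∀ s ∈ Ioo (σ n) τ,
        L (2 * G) * (Aw lam w (2 * G) s + √(Wk κ w (2 * G) s)) * √(Wk κ w (2 * G) s)
        + (if 2 * G = 0 then 0 else L (2 * G - 1) * Aw lam w (2 * G) s * w (2 * G - 1) s)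
        ≤ 1 / Q * (L (2 * G) * β) := fun s hs => by
      refine ((hR s (hin s hs)).qh _ (by omega)).trans ?_
      have := hbs s hs
      gcongr
    have hLk : L (2 * G) = lam ^ (k + 1) * L n := by
      rw [hk, show n + 1 + k = n + (k + 1) by ring, q.Lk]
    rcases k0.Hs k with ⟨hk1, hk2⟩ | hk2
    · -- far
      have hsl : 0 < √lam ^ (k - 1) := by positivity
      have h1 := (gr_G b sv hN hQ (G := G) (a := 8 * (k + 1) * (√lam ^ (k - 1))⁻¹)
        (S := L (2 * G) * β) (by positivity) (by positivity) hτ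
        (fun s hs => by rw [hk]; exact (hR s (hin s hs)).Af k hk1) hRs hqs).2
      refine h1 (1 / Q * (H k * β)) (1 / 2000 * (L (2 * G) / lam)) ?_ (by positivity) hG0 ?_ ?_ ?_
      · have := hH k
        positivity
      · refine hv0.trans ?_
        have := k0.Hm k
        gcongr
      · have h2 := k0.Hb k
        have h3 : 4000 * N₂ * Real.exp lam ≤ H k / lam := by
          rw [le_div_iff₀ hl]
          linarith
        calc N₂ / Q * Real.exp lam * (L (2 * G) * β)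
            = 1 / Q * (N₂ * Real.exp lam) * (L (2 * G) * β) := by ring
          _ ≤ 1 / Q * (1 / 2000 * (4000 * N₂ * Real.exp lam)) * (L (2 * G) * β) := by
              have h4 : 0 < N₂ * Real.exp lam := by positivity
              have h5 : N₂ * Real.exp lam ≤ 1 / 2000 * (4000 * N₂ * Real.exp lam) := by linarith
              exact mul_le_mul_of_nonneg_right
                (mul_le_mul_of_nonneg_left h5 (by positivity)) (by positivity)
          _ ≤ 1 / Q * (1 / 2000 * (H k / lam)) * (L (2 * G) * β) := by gcongr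
          _ = _ := by ring
      · have h2 : N₂ * (L (2 * G) * (8 * (k + 1) * (√lam ^ (k - 1))⁻¹)) ≤
            1 / 2000 * (L (2 * G) / lam) := by
          have h3 : N₂ * (8 * (k + 1) * (√lam ^ (k - 1))⁻¹) ≤ 1 / 2000 * (1 / lam) := by
            rw [show N₂ * (8 * (k + 1) * (√lam ^ (k - 1))⁻¹) =
              (8 * N₂ * (k + 1)) / √lam ^ (k - 1) by rw [div_eq_mul_inv]; ring,
              show 1 / 2000 * (1 / lam) = 1 / (2000 * lam) by field_simp,
              div_le_div_iff₀ hsl (by positivity)]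
            have h4 : 0 < N₂ * lam * (k + 1) := by positivity
            nlinarith
          calc N₂ * (L (2 * G) * (8 * (k + 1) * (√lam ^ (k - 1))⁻¹))
              = (N₂ * (8 * (k + 1) * (√lam ^ (k - 1))⁻¹)) * L (2 * G) := by ring
            _ ≤ (1 / 2000 * (1 / lam)) * L (2 * G) := by gcongr
            _ = _ := by ring
        linarith
    · -- near
      have h1 := (gr_G b sv hN hQ (G := G) (a := 6)
        (S := L (2 * G) * β) (by positivity) (by norm_num) hτ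
        (fun s hs => (hR s (hin s hs)).A1 _) hRs hqs).1
      have hlk : 0 < lam ^ (k + 1) := by positivity
      have h2 : L (2 * G) * (τ - σ n) ≤ 62 / 100 * lam ^ (k + 2) := by
        rw [hLk]
        calc lam ^ (k + 1) * L n * (τ - σ n) = lam ^ (k + 1) * ((τ - σ n) * L n) := by ring
          _ ≤ lam ^ (k + 1) * (62 / 100 * lam) := by gcongr
          _ = _ := by ring
      have hlk2 : 0 < lam ^ (k + 2) := by positivity
      have h3 : Real.exp (N₂ * (L (2 * G) * 6) * (τ - σ n)) ≤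
          Real.exp (4 * N₂ * lam ^ (k + 2)) := by
        apply Real.exp_le_exp.2
        calc N₂ * (L (2 * G) * 6) * (τ - σ n) = 6 * N₂ * (L (2 * G) * (τ - σ n)) := by ring
          _ ≤ 6 * N₂ * (62 / 100 * lam ^ (k + 2)) := by gcongr
          _ = (6 * (62 / 100)) * N₂ * lam ^ (k + 2) := by ring
          _ ≤ _ := by gcongr; norm_num
      have h4 : 2 * (N₂ / Q * Real.exp lam * (L (2 * G) * β)) * (τ - σ n) ≤
          1 / Q * ((2 * N₂ * Real.exp lam * lam ^ (k + 2)) * β) := by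
        calc 2 * (N₂ / Q * Real.exp lam * (L (2 * G) * β)) * (τ - σ n)
            = 1 / Q * ((2 * N₂ * Real.exp lam * (L (2 * G) * (τ - σ n))) * β) := by ring
          _ ≤ 1 / Q * ((2 * N₂ * Real.exp lam * (lam ^ (k + 2))) * β) := by
              have : L (2 * G) * (τ - σ n) ≤ lam ^ (k + 2) := by linarith
              gcongr
          _ = _ := by ring
      refine h1.trans ?_
      have hHk := hH (k + 1)
      have hvn : 0 ≤ v G (σ n) := sv.v0 G _
        ⟨sg_nn b.h n le_rfl, b.h.σT⟩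
      calc Real.exp (N₂ * (L (2 * G) * 6) * (τ - σ n)) *
            (v G (σ n) + 2 * (N₂ / Q * Real.exp lam * (L (2 * G) * β)) * (τ - σ n))
          ≤ Real.exp (4 * N₂ * lam ^ (k + 2)) * (1 / Q * (H (k + 1) * β) +
            1 / Q * ((2 * N₂ * Real.exp lam * lam ^ (k + 2)) * β)) := by gcongr
        _ = 1 / Q * ((Real.exp (4 * N₂ * lam ^ (k + 2)) *
            (H (k + 1) + 2 * N₂ * Real.exp lam * lam ^ (k + 2))) * β) := by ring
        _ ≤ 1 / Q * (H k * β) := by gcongr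

/-- the bounds of the other modes -/
theorem vw (b : BH κ lam N Q η L C ℓ B T x w f n σ t1 t) (sv : SysV κ lam N₂ Q L T x w v)
    (k0 : Kon κ lam N₂ Q η H A)
    (hR : ∀ τ ∈ Icc (σ n) t, Rb κ lam Q L C x w n τ) {τ : ℝ} (hτ : τ ∈ Icc (σ n) t)
    (hvd : VD lam N₂ Q H A L C x v n σ τ) (p : ℕ) : w p τ ≤ η * bh lam C x n p τ := by
  have q := b.g.q
  have hl := q.lamp
  have hlb := q.lam_big
  have hN := k0.N₂1
  have hQ := k0.Q1
  have hQ0 : 0 < Q := by linarith
  have hN0 : 0 < N₂ := by linarith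
  have hκ := q.κ0
  have hex := Real.exp_pos lam
  have hA : 0 ≤ A := le_trans (by positivity) k0.Ab
  have hH : ∀ k, 0 ≤ H k := fun k => le_trans (by positivity) (k0.Hb k)
  have hH0 : ∀ k, H k ≤ H 0 := by
    intro k
    induction k with
    | zero => exact le_rfl
    | succ k ih => exact (k0.Hm k).trans ih
  have hσ := sg_nn b.h n le_rfl
  have hT : t < T := b.ht.2.trans_le b.hc.leT
  have hτT : τ ∈ Ico 0 T := ⟨hσ.trans hτ.1, hτ.2.trans_lt hT⟩
  set E3 := Real.exp (3 * N₂ * lam) with hE3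
  have hE3p : 1 ≤ E3 := Real.one_le_exp (by positivity)
  -- the bound for one double group
  have key : ∀ G : ℕ, κ⁻¹ * √(w (2 * G) τ ^ 2 + κ ^ 2 * w (2 * G + 1) τ ^ 2) ≤
      η * (Real.exp (-(6 / 100) * lam) * bh lam C x n (2 * G) τ) := by
    intro G
    set β := bh lam C x n (2 * G) τ with hβ
    have hβ0 : 0 < β := bh_pos _
    have h1 : v G τ ≤ 1 / Q * (E3 * (H 0 + 2 * A) * β) := by
      refine (hvd G).trans ?_
      by_cases hG : 2 * G ≤ n
      · rw [if_pos hG, hβ, bh_low (by omega), mul_one]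
        have h2 := tim b hτ (n - 2 * G) (by omega)
        rw [show n - (n - 2 * G) = 2 * G by omega] at h2
        have h3 : Real.exp (4 * N₂ * (L (2 * G) * (τ - σ (2 * G)))) ≤ E3 := by
          apply Real.exp_le_exp.2
          calc 4 * N₂ * (L (2 * G) * (τ - σ (2 * G)))
              = 4 * N₂ * ((τ - σ (2 * G)) * L (2 * G)) := by ring
            _ ≤ 4 * N₂ * (6201 / 10000 * lam) := by gcongr
            _ = (4 * (6201 / 10000)) * N₂ * lam := by ring
            _ ≤ _ := by gcongr; norm_num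
        have h4 : 0 < (1 / 2 : ℝ) ^ (n - 2 * G) := by positivity
        have h4' : (1 / 2 : ℝ) ^ (n - 2 * G) ≤ 1 := pow_le_one₀ (by norm_num) (by norm_num)
        have h5 : H 0 + A * (2 - (1 / 2) ^ (n - 2 * G)) ≤ H 0 + 2 * A := by nlinarith
        have h6 : 0 ≤ H 0 + A * (2 - (1 / 2) ^ (n - 2 * G)) := by
          have := hH 0
          have := mul_nonneg hA (by linarith : (0:ℝ) ≤ 2 - (1 / 2) ^ (n - 2 * G))
          linarith
        gcongr
      · rw [if_neg hG]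
        have h2 := hH0 (2 * G - n - 1)
        have h3 := hH 0
        have h4 : H (2 * G - n - 1) ≤ E3 * (H 0 + 2 * A) := by
          have h5 : 0 ≤ H 0 + 2 * A := by linarith
          have h6 : H 0 + 2 * A ≤ E3 * (H 0 + 2 * A) := le_mul_of_one_le_left h5 hE3p
          linarith
        gcongr
    have h2 := (abs_le.1 (sv.vw G τ hτT)).2
    have h3 := (hR τ hτ).T (2 * G)
    have hLm := q.Lp (2 * G)
    have h4 : Tk κ lam L x w (2 * G) τ / L (2 * G) ≤ Real.exp (1 / 2 * lam) * β := by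
      rw [div_le_iff₀ hLm]
      refine h3.trans (le_of_eq ?_)
      ring
    have h5 : N₂ / Q * (Tk κ lam L x w (2 * G) τ / L (2 * G)) ≤
        N₂ / Q * (Real.exp (1 / 2 * lam) * β) := by gcongr
    have h6 : 0 ≤ E3 * (H 0 + 2 * A) := by
      have := hH 0
      positivity
    have h7 : √(w (2 * G) τ ^ 2 + κ ^ 2 * w (2 * G + 1) τ ^ 2) ≤
        1 / Q * (Real.exp (1 / 2 * lam) * (E3 * (H 0 + 2 * A) + N₂)) * β := by
      have h8 : (1 : ℝ) ≤ Real.exp (1 / 2 * lam) := Real.one_le_exp (by positivity)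
      have h9 : E3 * (H 0 + 2 * A) ≤ Real.exp (1 / 2 * lam) * (E3 * (H 0 + 2 * A)) :=
        le_mul_of_one_le_left h6 h8
      calc √(w (2 * G) τ ^ 2 + κ ^ 2 * w (2 * G + 1) τ ^ 2)
          ≤ 1 / Q * (E3 * (H 0 + 2 * A) * β) + N₂ / Q * (Real.exp (1 / 2 * lam) * β) := by
            linarith
        _ = 1 / Q * (E3 * (H 0 + 2 * A) + Real.exp (1 / 2 * lam) * N₂) * β := by ring
        _ ≤ 1 / Q * (Real.exp (1 / 2 * lam) * (E3 * (H 0 + 2 * A)) +
            Real.exp (1 / 2 * lam) * N₂) * β := by gcongr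
        _ = _ := by ring
    have h8 : κ⁻¹ * (1 / Q * (Real.exp (1 / 2 * lam) * (E3 * (H 0 + 2 * A) + N₂))) ≤
        η * Real.exp (-(6 / 100) * lam) := by
      have h9 := k0.Kη
      have h10 : Real.exp (1 / 2 * lam) ≤ Real.exp lam * Real.exp (-(6 / 100) * lam) := by
        rw [← Real.exp_add]
        apply Real.exp_le_exp.2
        linarith
      have h11 : 0 ≤ E3 * (H 0 + 2 * A) + N₂ := by linarith
      calc κ⁻¹ * (1 / Q * (Real.exp (1 / 2 * lam) * (E3 * (H 0 + 2 * A) + N₂)))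
          ≤ κ⁻¹ * (1 / Q * ((Real.exp lam * Real.exp (-(6 / 100) * lam)) *
            (E3 * (H 0 + 2 * A) + N₂))) := by gcongr
        _ = 1 / Q * (κ⁻¹ * Real.exp lam * (E3 * (H 0 + 2 * A) + N₂)) *
            Real.exp (-(6 / 100) * lam) := by ring
        _ ≤ 1 / Q * (η * Q) * Real.exp (-(6 / 100) * lam) := by gcongr
        _ = _ := by field_simp
    calc κ⁻¹ * √(w (2 * G) τ ^ 2 + κ ^ 2 * w (2 * G + 1) τ ^ 2)
        ≤ κ⁻¹ * (1 / Q * (Real.exp (1 / 2 * lam) * (E3 * (H 0 + 2 * A) + N₂)) * β) := by gcongr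
      _ = (κ⁻¹ * (1 / Q * (Real.exp (1 / 2 * lam) * (E3 * (H 0 + 2 * A) + N₂)))) * β := by ring
      _ ≤ (η * Real.exp (-(6 / 100) * lam)) * β := by gcongr
      _ = _ := by ring
  have hη := b.g.η0
  rcases Nat.even_or_odd' p with ⟨G, hG | hG⟩
  · subst hG
    have h1 := key G
    have h2 := sv
    have hw := b.g.sy.w0 (2 * G) τ hτT
    have hβ0 : 0 < bh lam C x n (2 * G) τ := bh_pos _
    have h3 : w (2 * G) τ ≤ √(w (2 * G) τ ^ 2 + κ ^ 2 * w (2 * G + 1) τ ^ 2) := by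
      apply Real.le_sqrt_of_sq_le
      have : 0 ≤ κ ^ 2 * w (2 * G + 1) τ ^ 2 := by positivity
      linarith
    have h4 : (1 : ℝ) ≤ κ⁻¹ := (one_le_inv₀ hκ).2 q.κ1
    have h5 : Real.exp (-(6 / 100) * lam) ≤ 1 := Real.exp_le_one_iff.2 (by linarith)
    calc w (2 * G) τ ≤ √(w (2 * G) τ ^ 2 + κ ^ 2 * w (2 * G + 1) τ ^ 2) := h3
      _ ≤ κ⁻¹ * √(w (2 * G) τ ^ 2 + κ ^ 2 * w (2 * G + 1) τ ^ 2) :=
          le_mul_of_one_le_left (Real.sqrt_nonneg _) h4
      _ ≤ η * (Real.exp (-(6 / 100) * lam) * bh lam C x n (2 * G) τ) := h1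
      _ ≤ η * (1 * bh lam C x n (2 * G) τ) := by gcongr
      _ = _ := by ring
  · subst hG
    have h1 := key G
    have hw := b.g.sy.w0 (2 * G + 1) τ hτT
    have h3 : κ * w (2 * G + 1) τ ≤ √(w (2 * G) τ ^ 2 + κ ^ 2 * w (2 * G + 1) τ ^ 2) := by
      apply Real.le_sqrt_of_sq_le
      have : 0 ≤ w (2 * G) τ ^ 2 := by positivity
      nlinarith
    have h4 : w (2 * G + 1) τ ≤ κ⁻¹ * √(w (2 * G) τ ^ 2 + κ ^ 2 * w (2 * G + 1) τ ^ 2) := by
      rw [inv_mul_eq_div, le_div_iff₀ hκ]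
      linarith
    have h5 := bh_succ (x := x) (n := n) (t := τ) q (2 * G)
    refine h4.trans (h1.trans ?_)
    calc η * (Real.exp (-(6 / 100) * lam) * bh lam C x n (2 * G) τ)
        ≤ η * (Real.exp (-(6 / 100) * lam) *
          (Real.exp (6 / 100 * lam) * bh lam C x n (2 * G + 1) τ)) := by gcongr
      _ = η * ((Real.exp (-(6 / 100) * lam) * Real.exp (6 / 100 * lam)) *
          bh lam C x n (2 * G + 1) τ) := by ring
      _ = _ := by
          rw [← Real.exp_add, show -(6 / 100) * lam + 6 / 100 * lam = 0 by ring, Real.exp_zero,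
            one_mul]

end stage

theorem barv : S_BARV := by
  intro κ lam N N₂ Q η A H L C ℓ B T x w v f n σ t1 t b sv k0 vs _ hR τ hτ
  have h1 := vd b sv k0 vs hR hτ
  exact ⟨h1, fun p => vw b sv k0 hR hτ h1 p⟩

end Pool.Agent.Y87.SK
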